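import Mathlib

/-! Linear independence of products of consecutive shifted linear factors. -/

set_option autoImplicit false

namespace Pool.Agent.Results.MP_441cc7_al.Indep

open Polynomial Finset

noncomputable def P (t : ℕ → ℝ) (n i : ℕ) : ℝ[X] := ∏ j ∈ range n, (X - C (t (i + j + 1)))

theorem P_monic (t : ℕ → ℝ) (n i : ℕ) : (P t n i).Monic :=
  monic_prod_of_monic _ _ fun _ _ => monic_X_sub_C _

theorem P_deg (t : ℕ → ℝ) (n i : ℕ) : (P t n i).natDegree = n := by
  rw [P, natDegree_prod_of_monic _ _ fun _ _ => monic_X_sub_C _]; simp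

theorem P_sub (t : ℕ → ℝ) (n i : ℕ) :
    P t (n + 1) i - P t (n + 1) (i + 1) = (t (i + n + 2) - t (i + 1)) • P t n (i + 1) := by
  have h1 : P t (n + 1) i = P t n (i + 1) * (X - C (t (i + 1))) := by
    rw [P, prod_range_succ', P]
    congr 1
    exact prod_congr rfl fun j _ => by congr 3; omega
  have h2 : P t (n + 1) (i + 1) = P t n (i + 1) * (X - C (t (i + n + 2))) := by
    rw [P, prod_range_succ, P]; congr 4; omega
  rw [h1, h2, smul_eq_C_mul, C_sub]; ring

theorem step (c : ℕ → ℝ) (a b : ℕ) (hab : a < b) (h : c b ≤ c a) :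
    ∃ m, a ≤ m ∧ m < b ∧ c (m + 1) ≤ c m := by
  by_contra hc
  push Not at hc
  have : ∀ d, a + d + 1 ≤ b → c a < c (a + d + 1) := fun d => by
    induction d with
    | zero => exact fun h => hc a le_rfl h
    | succ d ih => exact fun h => (ih (by omega)).trans (hc _ (by omega) (by omega))
  have := this (b - a - 1) (by omega)
  rw [show a + (b - a - 1) + 1 = b by omega] at this
  exact this.not_ge h

theorem key (t : ℕ → ℝ) (ht : StrictMonoOn t (Set.Ici 1)) (f : ℝ[X] →ₗ[ℝ] ℝ) (n : ℕ) :
    ∀ j : ℕ → ℕ, (∀ l, l ≤ n → j l < j (l + 1)) → (∀ l, l ≤ n + 1 → 0 ≤ (-1) ^ l * f (P t n (j l))) →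
      ∀ p : ℝ[X], p.natDegree ≤ n → f p = 0 := by
  induction n with
  | zero =>
    intro j _ h p hp
    have h0 := h 0 (by omega)
    have h1 := h 1 le_rfl
    simp only [P, range_zero, prod_empty, pow_zero, pow_one] at h0 h1
    rw [eq_C_of_natDegree_le_zero hp, ← mul_one (C _), ← smul_eq_C_mul, map_smul,
      show f 1 = 0 by linarith, smul_zero]
  | succ n ih =>
    intro j hj h
    have : ∀ l, ∃ m, l ≤ n + 1 → j l ≤ m ∧ m < j (l + 1) ∧ 0 ≤ (-1) ^ l * f (P t n (m + 1)) := by
      intro l
      by_cases hl : l ≤ n + 1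
      · obtain ⟨m, h1, h2, h3⟩ := step (fun i => (-1) ^ l * f (P t (n + 1) i)) _ _ (hj l hl) (by
          have a := h l (by omega)
          have b := h (l + 1) (by omega)
          rw [pow_succ] at b
          linarith)
        refine ⟨m, fun _ => ⟨h1, h2, ?_⟩⟩
        have e := congrArg f (P_sub t n m)
        rw [map_sub, map_smul, smul_eq_mul] at e
        have p : 0 < t (m + n + 2) - t (m + 1) :=
          sub_pos.2 (ht (by simp) (by simp [Set.mem_Ici]) (by omega))
        refine nonneg_of_mul_nonneg_right (a := t (m + n + 2) - t (m + 1)) ?_ p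
        rw [mul_left_comm, ← e]
        linarith
      · exact ⟨0, fun h => absurd h hl⟩
    choose m hm using this
    have h0 := ih (fun l => m l + 1) (fun l hl => by
      have a := hm l (by omega)
      have b := hm (l + 1) (by omega)
      omega) fun l hl => (hm l hl).2.2
    have h1 : ∀ p : ℝ[X], p.natDegree ≤ n + 1 → f p = p.coeff (n + 1) * f (X ^ (n + 1)) := by
      intro p hp
      have : (p - C (p.coeff (n + 1)) * X ^ (n + 1)).natDegree ≤ n := by
        refine natDegree_le_iff_coeff_eq_zero.2 fun k hk => ?_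
        rcases (show k = n + 1 ∨ n + 1 < k by omega) with rfl | hk
        · simp
        · simp [coeff_X_pow, hk.ne', coeff_eq_zero_of_natDegree_lt (hp.trans_lt hk)]
      have := h0 _ this
      rw [map_sub, ← smul_eq_C_mul, map_smul, smul_eq_mul] at this
      linarith
    have h2 : ∀ i, f (P t (n + 1) i) = f (X ^ (n + 1)) := fun i => by
      have := (P_monic t (n + 1) i).coeff_natDegree
      rw [P_deg] at this
      rw [h1 _ (P_deg ..).le, this, one_mul]
    have a := h 0 (by omega)
    have b := h 1 (by omega)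
    rw [h2] at a b
    intro p hp
    rw [h1 p hp, show f (X ^ (n + 1)) = 0 by simp at a b; linarith, mul_zero]

theorem result (k : ℕ) (hk : 2 ≤ k) (t : ℕ → ℝ) (ht : StrictMonoOn t (Set.Ici 1))
    (i : Fin k → ℕ) (hi : StrictMono i) :
    LinearIndependent ℝ fun l : Fin k => ∏ j ∈ Icc 1 (k - 1), (X - C (t (i l + j)) : ℝ[X]) := by
  obtain ⟨n, rfl⟩ : ∃ n, k = n + 1 := ⟨k - 1, by omega⟩
  have e : ∀ a, ∏ j ∈ Icc 1 (n + 1 - 1), (X - C (t (a + j)) : ℝ[X]) = P t n a := fun a => by
    rw [P, Nat.add_sub_cancel, ← Finset.Ico_add_one_right_eq_Icc, prod_Ico_eq_prod_range]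
    exact prod_congr (by simp) fun j _ => by congr 3; omega
  simp only [e]
  have hm : ∀ a, P t n a ∈ degreeLT ℝ (n + 1) := fun a =>
    mem_degreeLT.2 (degree_le_natDegree.trans_lt (by rw [P_deg]; exact_mod_cast n.lt_succ_self))
  refine (linearIndependent_of_top_le_span_of_card_eq_finrank
    (b := fun l => (⟨P t n (i l), hm _⟩ : degreeLT ℝ (n + 1))) ?_ ?_).map' (Submodule.subtype _)
    (Submodule.ker_subtype _)
  · by_contra hc
    obtain ⟨g, hg0, hg⟩ := Submodule.exists_le_ker_of_lt_top _ (lt_top_iff_ne_top.2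
      fun h => hc h.ge)
    obtain ⟨f, hf⟩ := g.exists_extend
    have hf' : ∀ l, f (P t n (i l)) = 0 := fun l => by
      have := hg (Submodule.subset_span ⟨l, rfl⟩)
      rw [← hf] at this
      exact this
    let j : ℕ → ℕ := fun l => if h : l < n + 1 then i ⟨l, h⟩ else i (Fin.last n) + 1
    have hj : ∀ l, l ≤ n → j l < j (l + 1) := fun l hl => by
      simp only [j, dif_pos (Nat.lt_succ_of_le hl)]
      split_ifs with h
      · exact hi (Nat.lt_succ_self l)
      · exact Nat.lt_succ_of_le (hi.monotone (Fin.le_last _))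
    have hz : ∀ p : ℝ[X], p.natDegree ≤ n → f p = 0 := by
      have k : ∀ F : ℝ[X] →ₗ[ℝ] ℝ, (∀ l, F (P t n (i l)) = 0) →
          0 ≤ (-1) ^ (n + 1) * F (P t n (j (n + 1))) → ∀ p : ℝ[X], p.natDegree ≤ n → F p = 0 :=
        fun F h1 h2 => key t ht F n j hj fun l hl => by
          rcases (show l < n + 1 ∨ l = n + 1 by omega) with h | rfl
          · simp only [j, dif_pos h, h1, mul_zero, le_refl]
          · exact h2
      rcases le_total 0 ((-1) ^ (n + 1) * f (P t n (j (n + 1)))) with h | h
      · exact k f hf' h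
      · simpa using k (-f) (by simpa using hf') (by simpa using h)
    refine hg0 (LinearMap.ext fun p => ?_)
    rw [← hf]
    exact hz p (natDegree_le_of_degree_le (Order.le_of_lt_succ (mem_degreeLT.1 p.2)))
  · rw [Module.finrank_eq_card_basis (degreeLT.basis ℝ (n + 1))]

end Pool.Agent.Results.MP_441cc7_al.Indep
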